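import Pool.Agent.Helper72.MK.GoalsT

/-!
# MK-SEC1: eigenvector sections over compact contractible spaces
-/

open MeasureTheory Set Filter Topology
open scoped ENNReal Quaternion unitInterval

noncomputable section

namespace Pool.Agent.Helper40.MK

open Pool.Agent.Helper72.MK

theorem nm_cont : Continuous nm := by
  unfold nm
  fun_prop

theorem nm_pos {v : Fin 3 → ℝ} (h : v ≠ 0) : 0 < nm v := by
  unfold nm
  apply Real.sqrt_pos.2
  by_contra h0
  apply h
  have h1 := sq_nonneg (v 0)
  have h2 := sq_nonneg (v 1)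
  have h3 := sq_nonneg (v 2)
  have e0 : v 0 = 0 := by
    have : v 0 ^ 2 = 0 := by linarith
    exact pow_eq_zero_iff (by norm_num) |>.1 this
  have e1 : v 1 = 0 := by
    have : v 1 ^ 2 = 0 := by linarith
    exact pow_eq_zero_iff (by norm_num) |>.1 this
  have e2 : v 2 = 0 := by
    have : v 2 ^ 2 = 0 := by linarith
    exact pow_eq_zero_iff (by norm_num) |>.1 this
  funext i
  fin_cases i
  · exact e0
  · exact e1
  · exact e2

theorem nm_le (v : Fin 3 → ℝ) : nm v ≤ 2 * ‖v‖ := by
  unfold nm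
  have h (i : Fin 3) : v i ^ 2 ≤ ‖v‖ ^ 2 := by
    rw [← sq_abs (v i)]
    have := norm_le_pi_norm v i
    rw [Real.norm_eq_abs] at this
    exact pow_le_pow_left₀ (abs_nonneg _) this 2
  apply Real.sqrt_le_iff.2
  refine ⟨by positivity, ?_⟩
  have h0 := h 0
  have h1 := h 1
  have h2 := h 2
  nlinarith [sq_nonneg ‖v‖]

theorem PM_cont {X : Type} [TopologicalSpace X] {w : X → Fin 3 → ℝ} {s : X → ℂ × ℂ}
    (hw : Continuous w) (hs : Continuous s) : Continuous fun x => PM (w x) (s x) := by
  unfold PM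
  have h0 : Continuous fun x => (w x 0 : ℂ) :=
    Complex.continuous_ofReal.comp ((continuous_apply 0).comp hw)
  have h1 : Continuous fun x => (w x 1 : ℂ) :=
    Complex.continuous_ofReal.comp ((continuous_apply 1).comp hw)
  have h2 : Continuous fun x => (w x 2 : ℂ) :=
    Complex.continuous_ofReal.comp ((continuous_apply 2).comp hw)
  fun_prop

theorem sec1 (hE : EIGStmt) : SEC1Stmt := by
  intro X _ _ _ v hv hv0
  obtain ⟨_, _, _, h3, h4⟩ := hE
  obtain ⟨x0, ⟨H0⟩⟩ := id_nullhomotopic X
  set H := H0.symm with hH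
  have hH0 (x : X) : H (0, x) = x0 := by simp
  have hH1 (x : X) : H (1, x) = x := by simp
  set V : I × X → Fin 3 → ℝ := fun z => v (H z) with hVdef
  have hV : Continuous V := hv.comp H.continuous
  have hVn (z : I × X) : 0 < nm (V z) := nm_pos (hv0 _)
  have : Nonempty (I × X) := ⟨(0, x0)⟩
  obtain ⟨z0, -, hz0⟩ := isCompact_univ.exists_isMinOn (s := (Set.univ : Set (I × X)))
    Set.univ_nonempty (nm_cont.comp hV).continuousOn
  have hmin (z : I × X) : nm (V z0) ≤ nm (V z) := hz0 (Set.mem_univ z)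
  set m := nm (V z0) with hm
  have hmp : 0 < m := hVn z0
  have huc : UniformContinuous V := CompactSpace.uniformContinuous_of_continuous hV
  obtain ⟨δ, hδ, hδ'⟩ := Metric.uniformContinuous_iff.1 huc (m / 2) (by positivity)
  obtain ⟨n, hn⟩ := exists_nat_one_div_lt hδ
  set p : ℕ → I := fun j => Set.projIcc (0 : ℝ) 1 zero_le_one ((j : ℝ) / ((n : ℝ) + 1)) with hp
  have hp0 : p 0 = 0 := by
    simp only [hp]
    rw [Nat.cast_zero, zero_div]
    exact Set.projIcc_left zero_le_one
  have hpN : p (n + 1) = 1 := by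
    simp only [hp]
    have : (((n + 1 : ℕ) : ℝ)) / ((n : ℝ) + 1) = 1 := by
      push_cast
      exact div_self (by positivity)
    rw [this]
    exact Set.projIcc_right zero_le_one
  have hpd (j : ℕ) : dist (p j) (p (j + 1)) < δ := by
    have h1 := (LipschitzWith.projIcc (zero_le_one (α := ℝ))).dist_le_mul
      ((j : ℝ) / ((n : ℝ) + 1)) (((j + 1 : ℕ) : ℝ) / ((n : ℝ) + 1))
    refine lt_of_le_of_lt h1 ?_
    rw [NNReal.coe_one, one_mul, Real.dist_eq]
    have : (j : ℝ) / ((n : ℝ) + 1) - ((j + 1 : ℕ) : ℝ) / ((n : ℝ) + 1) =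
        -(1 / ((n : ℝ) + 1)) := by
      push_cast
      ring
    rw [this, abs_neg, abs_of_pos (by positivity)]
    exact hn
  have key : ∀ j : ℕ, ∃ s : X → ℂ × ℂ, Continuous s ∧ ∀ x, Eig (V (p j, x)) (s x) := by
    intro j
    induction j with
    | zero =>
      obtain ⟨s, hs⟩ := h4 (v x0) (hv0 x0)
      refine ⟨fun _ => s, continuous_const, fun x => ?_⟩
      rw [hp0]
      simp only [hVdef, hH0]
      exact hs
    | succ j ih =>
      obtain ⟨s, hs, hE⟩ := ih
      have hw : Continuous fun x : X => V (p (j + 1), x) := hV.comp (by fun_prop)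
      refine ⟨fun x => PM (V (p (j + 1), x)) (s x) +
        ((nm (V (p (j + 1), x)) : ℝ) : ℂ) • s x, ?_, fun x => ?_⟩
      · exact (PM_cont hw hs).add
          ((Complex.continuous_ofReal.comp (nm_cont.comp hw)).smul hs)
      · refine h3 (V (p j, x)) (V (p (j + 1), x)) (s x) ?_ (hE x)
        have h5 : dist ((p j, x) : I × X) (p (j + 1), x) < δ := by
          rw [Prod.dist_eq, dist_self, max_lt_iff]
          exact ⟨hpd j, hδ⟩
        have h6 := hδ' h5
        rw [dist_eq_norm] at h6
        have h7 := nm_le (V (p j, x) - V (p (j + 1), x))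
        have h8 := hmin (p j, x)
        have h9 := hVn (p (j + 1), x)
        linarith
  obtain ⟨s, hs, hE⟩ := key (n + 1)
  refine ⟨s, hs, fun x => ?_⟩
  have := hE x
  rw [hpN] at this
  simp only [hVdef, hH1] at this
  exact this

end Pool.Agent.Helper40.MK
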